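import Mathlib.Data.Fintype.BigOperators
import Mathlib.Data.Prod.Lex
import Mathlib.Algebra.BigOperators.Pi
import Mathlib.Algebra.Order.BigOperators.Group.Finset
import Mathlib.Tactic.Linarith
import Mathlib.Tactic.Ring

/-!
# Sequences of permutations in which every pair is reversed at most once

A state is an injective function `g : V → ℕ` (the heights of the elements). `σ` is a function with the property that a pair is
reversed only if the element with the greater value of `σ` goes up; so every pair is reversed at most once.
-/

set_option autoImplicit false

open Finset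

namespace Pool.Agent.L0h27.PL

/-- `Path σ k f g e`: the state `f` is transformed into `g`; `e a` is the number of the distinguished exchanges of
the `k`-th lowest element with the next one in which `a` is the element that goes up. -/
inductive Path {V : Type} [Fintype V] [DecidableEq V] (σ : V → ℕ) (k : ℕ) :
    (V → ℕ) → (V → ℕ) → (V → ℕ) → Prop
  | nil (f : V → ℕ) (hf : Function.Injective f) : Path σ k f f 0
  | move {f g e : V → ℕ} (h : V → ℕ) : Path σ k f g e → Function.Injective h →
      (∀ i j, σ i ≤ σ j → g i < g j → h i < h j) → Path σ k f h e
  | event {f g e : V → ℕ} (h : V → ℕ) (A B : V) : Path σ k f g e → Function.Injective h →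
      σ B < σ A → g A < g B → h B < h A →
      (∀ i j, ¬ (i = A ∧ j = B) → ¬ (i = B ∧ j = A) → (g i < g j ↔ h i < h j)) →
      (univ.filter fun i => g i < g A).card + 1 = k → Path σ k f h (e + Pi.single A 1)

variable {V : Type} [Fintype V] [DecidableEq V] {σ : V → ℕ} {k : ℕ}

theorem Path.inj_left {f g e : V → ℕ} (p : Path σ k f g e) : Function.Injective f := by
  induction p with
  | nil hf => exact hf
  | move h _ _ _ ih => exact ih
  | event h A B _ _ _ _ _ _ _ ih => exact ih

theorem Path.inj_right {f g e : V → ℕ} (p : Path σ k f g e) : Function.Injective g := by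
  cases p with
  | nil hf => exact hf
  | move _ _ h _ => exact h
  | event _ A B _ h _ _ _ _ _ => exact h

theorem Path.trans {f g h e e' : V → ℕ} (p : Path σ k f g e) (q : Path σ k g h e') :
    Path σ k f h (e + e') := by
  induction q with
  | nil _ => simpa using p
  | move h _ hi hm ih => exact Path.move h ih hi hm
  | event h A B _ hi h1 h2 h3 h4 h5 ih =>
    have := Path.event h A B ih hi h1 h2 h3 h4 h5
    rwa [add_assoc] at this

/-- the monotonicity along a path -/
theorem Path.mono {f g e : V → ℕ} (p : Path σ k f g e) : ∀ i j, σ i ≤ σ j → f i < f j → g i < g j := by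
  induction p with
  | nil _ => intro i j _ h; exact h
  | move h _ _ hm ih => intro i j hij hf; exact hm i j hij (ih i j hij hf)
  | event h A B _ _ hσ hg hh hiff _ ih =>
    intro i j hij hf
    have h1 := ih i j hij hf
    by_cases c1 : i = A ∧ j = B
    · obtain ⟨rfl, rfl⟩ := c1
      omega
    · by_cases c2 : i = B ∧ j = A
      · obtain ⟨rfl, rfl⟩ := c2
        exact hh
      · exact (hiff i j c1 c2).1 h1

theorem Path.same {f g e : V → ℕ} (p : Path σ k f g e) {i j : V} (h : σ i = σ j) : f i < f j ↔ g i < g j := by
  refine ⟨p.mono i j h.le, fun hg => ?_⟩
  rcases lt_trichotomy (f i) (f j) with h1 | h1 | h1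
  · exact h1
  · have := p.inj_left h1
    subst this
    exact absurd hg (lt_irrefl _)
  · have := p.mono j i h.ge h1
    omega

/-- normalization of a key with values in a linear order -/
def norm {X K : Type} [Fintype X] [LinearOrder K] (key : X → K) (x : X) : ℕ :=
  (univ.filter fun y => key y < key x).card

theorem norm_lt {X K : Type} [Fintype X] [LinearOrder K] (key : X → K) (x y : X) :
    norm key x < norm key y ↔ key x < key y := by
  have h1 : ∀ x y : X, key x < key y → norm key x < norm key y := by
    intro x y h
    apply Finset.card_lt_card
    rw [Finset.ssubset_iff_of_subset]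
    · exact ⟨x, by simpa using h, by simp⟩
    · intro z hz
      simp only [mem_filter, mem_univ, true_and] at hz ⊢
      exact hz.trans h
  refine ⟨fun h => ?_, h1 x y⟩
  by_contra hcon
  push Not at hcon
  rcases eq_or_lt_of_le hcon with h2 | h2
  · unfold norm at h
    rw [h2] at h
    exact lt_irrefl _ h
  · have := h1 y x h2
    omega

theorem norm_inj {X K : Type} [Fintype X] [LinearOrder K] {key : X → K} (hk : Function.Injective key) :
    Function.Injective (norm key) := by
  intro x y h
  apply hk
  rcases lt_trichotomy (key x) (key y) with h1 | h1 | h1
  · have := (norm_lt key x y).2 h1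
    omega
  · exact h1
  · have := (norm_lt key y x).2 h1
    omega

end Pool.Agent.L0h27.PL
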